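import Pool.Agent.Q66.RX.Stm

/-!
Job PT0 of project RX: pointwise values of a character of the dual tend to one.
-/

set_option autoImplicit false

namespace Pool.Agent.Q103.RX

open Pool.Agent.Q66.RX
open Topology Filter Set

/-- neighbourhoods of one in the dual -/
theorem pt0_nhds {G : Type} [CommGroup G] [TopologicalSpace G] [IsTopologicalGroup G]
    {N : Set (PontryaginDual G)} (hN : N ∈ 𝓝 (1 : PontryaginDual G)) :
    ∃ C : Set G, IsCompact C ∧ ∃ V ∈ 𝓝 (1 : Circle), ∀ χ : PontryaginDual G,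
      (∀ y ∈ C, χ y ∈ V) → χ ∈ N := by
  have hi := ContinuousMonoidHom.isInducing_toContinuousMap G Circle
  have h1 : 𝓝 (1 : ContinuousMonoidHom G Circle) =
      comap (ContinuousMonoidHom.toContinuousMap (A := G) (B := Circle))
        (𝓝 (ContinuousMonoidHom.toContinuousMap (1 : ContinuousMonoidHom G Circle))) :=
    hi.nhds_eq_comap 1
  have hN' : (N : Set (ContinuousMonoidHom G Circle)) ∈ 𝓝 (1 : ContinuousMonoidHom G Circle) := hN
  rw [h1] at hN'
  obtain ⟨T, hT, hTN⟩ := hN'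
  obtain ⟨⟨C, E⟩, ⟨hC, hE⟩, hsub⟩ := (nhds_basis_uniformity'
    (ContinuousMap.hasBasis_compactConvergenceUniformity (α := G) (β := Circle))).mem_iff.1 hT
  refine ⟨C, hC, {z | ((1 : Circle), z) ∈ E}, UniformSpace.ball_mem_nhds 1 hE,
    fun χ hχ => hTN (hsub ?_)⟩
  intro y hy
  exact hχ y hy

theorem pt0_rr : {z : Circle | 0 ≤ rr z} ∈ 𝓝 (1 : Circle) := by
  have hc : Continuous rr := by
    unfold rr
    exact Complex.continuous_re.comp (by fun_prop)
  have h1 : (0 : ℝ) < rr 1 := by simp [rr]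
  filter_upwards [hc.continuousAt.eventually_const_lt h1] with z hz
  exact hz.le

theorem t_PT0 (hL : S_LC) : S_PT0 := by
  intro I X G _ _ _ _ _ _ _ F hvan hR2 Φ x hx
  rw [tendsto_def]
  intro U hU
  obtain ⟨Q, hQ, hQU⟩ := hR2 U hU
  -- continuity of the character at one
  have hΦ : (fun χ : PontryaginDual G => Φ χ) ⁻¹' {z : Circle | 0 ≤ rr z} ∈
      𝓝 (1 : PontryaginDual G) := by
    apply (map_continuous Φ).continuousAt.preimage_mem_nhds
    rw [map_one]
    exact pt0_rr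
  obtain ⟨C, hC, V, hV, hCV⟩ := pt0_nhds hΦ
  obtain ⟨M, hM, hQM⟩ := hL X Q hQ V hV
  obtain ⟨M', hM', hMM⟩ := exists_nhds_one_split hM
  have hB : {g : G | ∀ i, F.c g i ∈ M'} ∈ 𝓝 (1 : G) := (F.nhd _).2 ⟨M', hM', fun g hg => hg⟩
  have key : ∀ᶠ i in cofinite, ∀ y ∈ C, F.c y i ∈ M := by
    refine hC.induction_on (p := fun s => ∀ᶠ i in cofinite, ∀ y ∈ s, F.c y i ∈ M) ?_ ?_ ?_ ?_
    · exact Eventually.of_forall fun i y hy => absurd hy (notMem_empty _)
    · intro s t hst ht
      filter_upwards [ht] with i hi y hy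
      exact hi y (hst hy)
    · intro s t hs ht
      filter_upwards [hs, ht] with i hi hi' y hy
      rcases hy with hy | hy
      · exact hi y hy
      · exact hi' y hy
    · intro y0 _
      have hc : Continuous fun z : G => y0⁻¹ * z := continuous_const.mul continuous_id
      have hn : (fun z : G => y0⁻¹ * z) ⁻¹' {g : G | ∀ i, F.c g i ∈ M'} ∈ 𝓝 y0 :=
        hc.continuousAt.preimage_mem_nhds (by simpa using hB)
      refine ⟨_, mem_nhdsWithin_of_mem_nhds hn, ?_⟩
      have h0 : Tendsto (F.c y0) cofinite (𝓝 1) := (hvan (F.c y0)).1 ⟨y0, rfl⟩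
      filter_upwards [h0 hM'] with i hi z hz
      have h1 : F.c (y0⁻¹ * z) i ∈ M' := hz i
      have h2 : F.c z i = F.c y0 i * F.c (y0⁻¹ * z) i := by
        rw [← Pi.mul_apply, ← map_mul, mul_inv_cancel_left]
      rw [h2]
      exact hMM _ hi _ h1
  filter_upwards [key] with i hi
  apply hQU
  intro ψ hψ
  rw [← hx i ψ]
  apply hCV
  intro y hy
  rw [F.pb_apply]
  exact hQM ψ hψ _ (hi y hy)

end Pool.Agent.Q103.RX
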